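import Pool.Agent.H104.ML.Stm

/-! ML-CELL (helper176) -/

set_option autoImplicit false

open Finset MeasureTheory

namespace Pool.Agent.Q176.ML

open Pool.Agent.H104.ML

theorem round_sq (x : ℝ) : ((round x : ℤ) : ℝ) ^ 2 ≤ 4 * x ^ 2 := by
  have h1 := abs_sub_round x
  rw [abs_le] at h1
  by_cases hx : |x| < 1 / 2
  · have h2 : round x = 0 := by
      rw [round_eq_zero_iff]
      rw [abs_lt] at hx
      exact ⟨by linarith, by linarith⟩
    rw [h2]
    have := sq_nonneg x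
    push_cast
    nlinarith
  · push Not at hx
    have h3 : |((round x : ℤ) : ℝ)| ≤ 2 * |x| := by
      have h4 : ((round x : ℤ) : ℝ) = x - (x - round x) := by ring
      have h5 : |((round x : ℤ) : ℝ)| ≤ |x| + |x - round x| := by
        calc |((round x : ℤ) : ℝ)| = |x - (x - round x)| := by rw [← h4]
          _ ≤ |x| + |x - round x| := abs_sub _ _
      have h6 := abs_sub_round x
      linarith
    calc ((round x : ℤ) : ℝ) ^ 2 = |((round x : ℤ) : ℝ)| ^ 2 := (sq_abs _).symm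
      _ ≤ (2 * |x|) ^ 2 := pow_le_pow_left₀ (abs_nonneg _) h3 2
      _ = 4 * x ^ 2 := by rw [mul_pow, sq_abs]; norm_num

theorem t_CELL (h1 : S_PAT) (h2 : S_SEC) : S_CELL := by
  intro D n H hD hH
  classical
  obtain ⟨L, hL⟩ : ∃ L : (Fin D → ℝ) → Fin n → ℝ, L = fun c j => ∑ s, c s * H s j := ⟨_, rfl⟩
  obtain ⟨E, hE⟩ : ∃ E : (Fin n → ℤ) → Set (Fin D → ℝ), E = fun k =>
    {c | ((∀ s, |c s| ≤ 1) ∧ ∑ j, (∑ s, c s * H s j) ^ 2 ≤ (D : ℝ)) ∧
      ∀ j, |8 * (∑ s, c s * H s j) - k j| ≤ 1 / 2} := ⟨_, rfl⟩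
  have hEm : ∀ k, MeasurableSet (E k) := by
    intro k
    rw [hE]
    apply IsClosed.measurableSet
    simp only [Set.setOf_and, Set.setOf_forall]
    refine IsClosed.inter (IsClosed.inter ?_ ?_) ?_
    · exact isClosed_iInter fun s => isClosed_le (by fun_prop) (by fun_prop)
    · exact isClosed_le (by fun_prop) (by fun_prop)
    · exact isClosed_iInter fun s => isClosed_le (by fun_prop) (by fun_prop)
  obtain ⟨K, hK⟩ : ∃ K : Finset (Fin n → ℤ), K =
    (Fintype.piFinset fun _ => Finset.Icc (-(n : ℤ)) n).filter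
      (fun k => 100 * ∑ j, k j ^ 2 ≤ (n : ℤ)) := ⟨_, rfl⟩
  have hKc : (K.card : ℝ) ≤ Real.exp ((n : ℝ) / 10) := by
    refine h1 n K fun k hk => ?_
    rw [hK, Finset.mem_filter] at hk
    exact hk.2
  have hcov : {c : Fin D → ℝ | (∀ s, |c s| ≤ 1) ∧ ∑ j, (∑ s, c s * H s j) ^ 2 ≤ (D : ℝ)} ⊆
      ⋃ k ∈ K, E k := by
    rintro c ⟨hc1, hc2⟩
    have hs : 100 * ∑ j, (round (8 * ∑ s, c s * H s j) : ℤ) ^ 2 ≤ (n : ℤ) := by
      have h3 : ∑ j, (((round (8 * ∑ s, c s * H s j) : ℤ) : ℝ)) ^ 2 ≤ 256 * D := by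
        calc ∑ j, (((round (8 * ∑ s, c s * H s j) : ℤ) : ℝ)) ^ 2
            ≤ ∑ j, 256 * (∑ s, c s * H s j) ^ 2 := by
              refine Finset.sum_le_sum fun j _ => ?_
              refine (round_sq _).trans (le_of_eq ?_)
              ring
          _ = 256 * ∑ j, (∑ s, c s * H s j) ^ 2 := by rw [Finset.mul_sum]
          _ ≤ 256 * D := by linarith
      have h4 : (((100 * ∑ j, (round (8 * ∑ s, c s * H s j) : ℤ) ^ 2 : ℤ)) : ℝ) ≤ ((n : ℤ) : ℝ) := by
        push_cast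
        have h5 : (30000 : ℝ) * D ≤ n := by exact_mod_cast hD
        have h6 : (0 : ℝ) ≤ D := Nat.cast_nonneg D
        linarith
      exact_mod_cast h4
    refine Set.mem_biUnion (x := fun j => round (8 * ∑ s, c s * H s j)) ?_ ?_
    · rw [hK]
      simp only [Finset.mem_coe, Finset.mem_filter, Fintype.mem_piFinset, Finset.mem_Icc]
      refine ⟨fun j => ?_, hs⟩
      have h5 : (round (8 * ∑ s, c s * H s j) : ℤ) ^ 2 ≤
          ∑ j, (round (8 * ∑ s, c s * H s j) : ℤ) ^ 2 :=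
        Finset.single_le_sum (f := fun j => (round (8 * ∑ s, c s * H s j) : ℤ) ^ 2)
          (fun j _ => sq_nonneg _) (Finset.mem_univ j)
      have h6 : (round (8 * ∑ s, c s * H s j) : ℤ) ^ 2 ≤ n := by
        have := sq_nonneg (round (8 * ∑ s, c s * H s j) : ℤ)
        linarith
      have h7 : |(round (8 * ∑ s, c s * H s j) : ℤ)| ≤ n := by
        have h8 : |(round (8 * ∑ s, c s * H s j) : ℤ)| ≤ |(round (8 * ∑ s, c s * H s j) : ℤ)| ^ 2 :=
          Int.le_self_sq _
        rw [sq_abs] at h8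
        exact h8.trans h6
      rw [abs_le] at h7
      exact h7
    · rw [hE]
      exact ⟨⟨hc1, hc2⟩, fun j => abs_sub_round _⟩
  have hvol : (1 : ENNReal) ≤ ∑ k ∈ K, volume (E k) :=
    (h2 D n H hH).trans ((measure_mono hcov).trans (measure_biUnion_finset_le K E))
  have hex : ∃ k ∈ K, ENNReal.ofReal (Real.exp (-((n : ℝ) / 10))) ≤ volume (E k) := by
    by_contra hcon
    push Not at hcon
    have hne : K.Nonempty := by
      rw [Finset.nonempty_iff_ne_empty]
      intro h0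
      rw [h0, Finset.sum_empty] at hvol
      simp at hvol
    have h3 : ∑ k ∈ K, volume (E k) < ∑ k ∈ K, ENNReal.ofReal (Real.exp (-((n : ℝ) / 10))) :=
      ENNReal.sum_lt_sum_of_nonempty hne hcon
    have h4 : ∑ k ∈ K, ENNReal.ofReal (Real.exp (-((n : ℝ) / 10))) ≤ 1 := by
      rw [Finset.sum_const, nsmul_eq_mul, ← ENNReal.ofReal_natCast,
        ← ENNReal.ofReal_mul (Nat.cast_nonneg _), ← ENNReal.ofReal_one]
      apply ENNReal.ofReal_le_ofReal
      calc (K.card : ℝ) * Real.exp (-((n : ℝ) / 10))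
          ≤ Real.exp ((n : ℝ) / 10) * Real.exp (-((n : ℝ) / 10)) :=
            mul_le_mul_of_nonneg_right hKc (Real.exp_pos _).le
        _ = 1 := by
          rw [← Real.exp_add]
          simp
    exact absurd (hvol.trans_lt (h3.trans_le h4)) (lt_irrefl _)
  obtain ⟨k, -, hk⟩ := hex
  have hpos : 0 < volume (E k) :=
    lt_of_lt_of_le (ENNReal.ofReal_pos.2 (Real.exp_pos _)) hk
  obtain ⟨c', hc'⟩ := nonempty_of_measure_ne_zero hpos.ne'
  refine ⟨(fun c => c + c') ⁻¹' (E k), (measurable_add_const c') (hEm k), ?_, ?_⟩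
  · intro c hc j
    have h3 : c + c' ∈ E k := hc
    rw [hE] at h3 hc'
    have h4 := h3.2 j
    have h5 := hc'.2 j
    have h6 : ∑ s, (c + c') s * H s j = ∑ s, c s * H s j + ∑ s, c' s * H s j := by
      rw [← Finset.sum_add_distrib]
      refine Finset.sum_congr rfl fun s _ => ?_
      rw [Pi.add_apply]
      ring
    rw [h6] at h4
    rw [abs_le] at h4 h5 ⊢
    constructor <;> linarith [h4.1, h4.2, h5.1, h5.2]
  · rw [measure_preimage_add_right]
    exact hk

end Pool.Agent.Q176.ML
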