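import Pool.Agent.H104.ML.Stm

/-! ML-DGA (helper176) -/

set_option autoImplicit false

open Finset

namespace Pool.Agent.Q176.ML

open Pool.Agent.H104.ML

theorem lev_lt {m J q : ℕ} (hJ : 1 ≤ J) (h : m < q ^ 2 ^ (J - 1)) : lev m q < J := by
  unfold lev
  have h1 : sInf {i | m < q ^ 2 ^ i} ≤ J - 1 := Nat.sInf_le h
  omega

theorem lt_of_lev {m J q : ℕ} (hq : 1 ≤ q) (hne : ∃ i, m < q ^ 2 ^ i) (h : lev m q < J) :
    m < q ^ 2 ^ (J - 1) := by
  have h1 : m < q ^ 2 ^ (lev m q) := Nat.sInf_mem hne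
  refine h1.trans_le (Nat.pow_le_pow_right hq (Nat.pow_le_pow_right (by norm_num) (by omega)))

theorem exists_lev {m q : ℕ} (hq : 2 ≤ q) : ∃ i, m < q ^ 2 ^ i := by
  refine ⟨m, ?_⟩
  calc m < 2 ^ m := Nat.lt_two_pow_self
    _ < 2 ^ 2 ^ m := Nat.pow_lt_pow_right (by norm_num) Nat.lt_two_pow_self
    _ ≤ q ^ 2 ^ m := Nat.pow_le_pow_left hq _

/-- prime factors of the members of `SS` are large -/
theorem pf_large {m J b q : ℕ} (hb : b ∈ SS m J) (hq : q.Prime) (hqb : q ∣ b) :
    m < q ^ 2 ^ (J - 1) := by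
  classical
  unfold SS at hb
  rw [Finset.mem_filter, Finset.mem_Icc] at hb
  obtain ⟨⟨hb1, hbm⟩, hsq, hlv⟩ := hb
  have hb0 : b ≠ 1 := by
    rintro rfl
    exact hq.one_lt.ne' (Nat.dvd_one.1 hqb)
  unfold lv at hlv
  rw [if_neg hb0] at hlv
  have hmf : b.minFac.Prime := Nat.minFac_prime hb0
  have h1 := lt_of_lev hmf.one_le (exists_lev hmf.two_le) hlv
  exact h1.trans_le (Nat.pow_le_pow_left (Nat.minFac_le_of_dvd hq.two_le hqb) _)

theorem mem_SS {m J b p : ℕ} (hJ : 1 ≤ J) (hb : b ∈ SS m J) (hp : p.Prime)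
    (hpb : ¬ p ∣ b) (hm : b * p ≤ m) (hlarge : m < p ^ 2 ^ (J - 1)) : b * p ∈ SS m J := by
  classical
  have hb' := hb
  unfold SS at hb' ⊢
  rw [Finset.mem_filter, Finset.mem_Icc] at hb' ⊢
  obtain ⟨⟨hb1, hbm⟩, hsq, hlv⟩ := hb'
  refine ⟨⟨Nat.mul_pos hb1 hp.pos, hm⟩, ?_, ?_⟩
  · rw [Nat.squarefree_mul ((Nat.Prime.coprime_iff_not_dvd hp).2 hpb).symm]
    exact ⟨hsq, hp.squarefree⟩
  · have hne : b * p ≠ 1 := by
      intro h
      have := Nat.eq_one_of_mul_eq_one_left h
      exact hp.one_lt.ne' this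
    unfold lv
    rw [if_neg hne]
    apply lev_lt hJ
    have hq : (b * p).minFac.Prime := Nat.minFac_prime hne
    rcases (Nat.Prime.dvd_mul hq).1 (Nat.minFac_dvd (b * p)) with h | h
    · exact pf_large hb hq h
    · rw [(Nat.prime_dvd_prime_iff_eq hq hp).1 h]
      exact hlarge

/-- the sum over the prime factors of `b` is small -/
theorem small_sum {m J b : ℕ} (hJ : 1 ≤ J) (hm : (4 : ℝ) ^ J ≤ Real.log m) (hb : b ∈ SS m J) :
    ∑ p ∈ b.primeFactors, Real.log p / p ≤ 1 := by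
  classical
  have hb' := hb
  unfold SS at hb'
  rw [Finset.mem_filter, Finset.mem_Icc] at hb'
  obtain ⟨⟨hb1, hbm⟩, hsq, hlv⟩ := hb'
  have h4 : (4 : ℝ) ≤ (4 : ℝ) ^ J := le_self_pow₀ (by norm_num) (by omega)
  have hm0 : 1 ≤ m := hb1.trans hbm
  obtain ⟨K, hK⟩ : ∃ K : ℕ, K = 2 ^ (J - 1) := ⟨_, rfl⟩
  have hK1 : 1 ≤ K := by
    rw [hK]
    exact Nat.one_le_two_pow
  have hKJ : (4 : ℝ) ^ J = 4 * (K : ℝ) ^ 2 := by
    obtain ⟨j, rfl⟩ : ∃ j, J = j + 1 := ⟨J - 1, by omega⟩
    rw [hK]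
    simp only [Nat.add_sub_cancel]
    push_cast
    rw [← pow_mul, mul_comm j 2, pow_mul]
    norm_num
    ring
  have hKr : (1 : ℝ) ≤ K := by exact_mod_cast hK1
  -- the number of prime factors
  have hcard : b.primeFactors.card ≤ K := by
    by_contra hcon
    push Not at hcon
    have h1 : ∀ p ∈ b.primeFactors, m < p ^ K := by
      intro p hp
      rw [hK]
      exact pf_large hb (Nat.prime_of_mem_primeFactors hp) (Nat.dvd_of_mem_primeFactors hp)
    have h2 : ∏ p ∈ b.primeFactors, p ≤ b :=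
      Nat.le_of_dvd hb1 (Nat.prod_primeFactors_dvd b)
    have h3 : m ^ b.primeFactors.card ≤ ∏ p ∈ b.primeFactors, p ^ K := by
      rw [← Finset.prod_const]
      exact Finset.prod_le_prod (fun _ _ => Nat.zero_le _) fun p hp => (h1 p hp).le
    rw [Finset.prod_pow] at h3
    have h5 : m ^ b.primeFactors.card ≤ m ^ K :=
      h3.trans ((Nat.pow_le_pow_left h2 K).trans (Nat.pow_le_pow_left hbm K))
    have hm2 : 1 < m := by
      rcases Nat.lt_or_ge 1 m with h | h
      · exact h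
      · have h6 : m = 1 := le_antisymm h hm0
        rw [h6] at hm
        norm_num at hm
        linarith
    have h7 := (Nat.pow_le_pow_iff_right hm2).1 h5
    omega
  have hterm : ∀ p ∈ b.primeFactors, Real.log p / p ≤ 1 / K := by
    intro p hp
    have hpp := Nat.prime_of_mem_primeFactors hp
    have h1 := pf_large hb hpp (Nat.dvd_of_mem_primeFactors hp)
    rw [← hK] at h1
    have hp0 : (0 : ℝ) < p := by exact_mod_cast hpp.pos
    have h2 : Real.log m ≤ K * Real.log p := by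
      rw [← Real.log_pow]
      refine Real.log_le_log (by exact_mod_cast hm0) ?_
      exact_mod_cast h1.le
    have h3 : 4 * (K : ℝ) ≤ Real.log p := by
      rw [hKJ] at hm
      have h5 : (K : ℝ) * (4 * K) ≤ K * Real.log p := by nlinarith
      exact le_of_mul_le_mul_left h5 (by linarith)
    have h6 : Real.log p ^ 2 / 2 ≤ p := by
      have h7 := Real.quadratic_le_exp_of_nonneg (x := Real.log p) (by linarith)
      rw [Real.exp_log hp0] at h7
      linarith
    rw [div_le_div_iff₀ hp0 (by linarith)]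
    nlinarith
  calc ∑ p ∈ b.primeFactors, Real.log p / p ≤ ∑ p ∈ b.primeFactors, 1 / (K : ℝ) :=
        Finset.sum_le_sum hterm
    _ = b.primeFactors.card * (1 / (K : ℝ)) := by rw [Finset.sum_const, nsmul_eq_mul]
    _ ≤ K * (1 / (K : ℝ)) := by
        refine mul_le_mul_of_nonneg_right ?_ (by positivity)
        exact_mod_cast hcard
    _ = 1 := by
        field_simp

theorem t_DGA (h1 : S_MA) (h2 : S_FLO) : S_DGA := by
  classical
  obtain ⟨C, hC, hMA⟩ := h1
  refine ⟨C + 9, by linarith, ?_⟩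
  intro m J n b hJ hm hmn hb hmu
  have hb' := hb
  unfold SS at hb'
  rw [Finset.mem_filter, Finset.mem_Icc] at hb'
  obtain ⟨⟨hb1, hbm⟩, hsq, hlv⟩ := hb'
  have h4 : (4 : ℝ) ≤ (4 : ℝ) ^ J := le_self_pow₀ (by norm_num) (by omega)
  have hm0 : 1 ≤ m := hb1.trans hbm
  have hm2 : 2 ≤ m := by
    rcases Nat.lt_or_ge 1 m with h | h
    · exact h
    · have h6 : m = 1 := le_antisymm h hm0
      rw [h6] at hm
      norm_num at hm
      linarith
  have hb0 : (0 : ℝ) < b := by exact_mod_cast hb1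
  have hmr : (0 : ℝ) < m := by exact_mod_cast hm0
  have hJr : (1 : ℝ) ≤ J := by exact_mod_cast hJ
  have hn0 : (0 : ℝ) < n := by
    have : 0 < m ^ 2 := by positivity
    exact_mod_cast this.trans_le hmn
  -- the multiplicity
  have hf := (h2 m J b hJ hb1 hlv.le).2 hlv hmu
  have hlogmu : Real.log m - Real.log (2 * J) - Real.log b ≤ Real.log (mu m J b) := by
    have h5 : Real.log ((m : ℝ) / (2 * J * b)) ≤ Real.log (mu m J b) :=
      Real.log_le_log (by positivity) hf
    rw [Real.log_div hmr.ne' (by positivity), Real.log_mul (by positivity) hb0.ne'] at h5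
    linarith
  -- the primes
  obtain ⟨N, hN⟩ : ∃ N : ℕ, N = m / b := ⟨_, rfl⟩
  have hN1 : 1 ≤ N := by
    rw [hN]
    exact (Nat.one_le_div_iff hb1).2 hbm
  have hma := hMA m J N hm2 hJ hN1
  have hlogN : Real.log m - Real.log b - Real.log 2 ≤ Real.log N := by
    have h5 : (m : ℝ) / b / 2 ≤ N := by
      have h6 : m < b * (N + 1) := by
        rw [hN]
        exact Nat.lt_mul_div_succ m hb1
      have h7 : (m : ℝ) < b * (N + 1) := by exact_mod_cast h6
      have h8 : (1 : ℝ) ≤ N := by exact_mod_cast hN1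
      rw [div_div, div_le_iff₀ (by positivity)]
      nlinarith
    have h6 := Real.log_le_log (by positivity) h5
    rw [Real.log_div (by positivity) (by norm_num), Real.log_div hmr.ne' hb0.ne'] at h6
    exact h6
  obtain ⟨P, hP⟩ : ∃ P : Finset ℕ, P = (Icc 1 N).filter
    (fun p => p.Prime ∧ m < p ^ 2 ^ (J - 1)) := ⟨_, rfl⟩
  rw [← hP] at hma
  have hsplit : ∑ p ∈ P, Real.log p / p ≤
      ∑ p ∈ P.filter (fun p => ¬ p ∣ b), Real.log p / p + 1 := by
    rw [← Finset.sum_filter_not_add_sum_filter P (fun p => p ∣ b)]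
    have h5 : ∑ p ∈ P.filter (fun p => p ∣ b), Real.log p / p ≤
        ∑ p ∈ b.primeFactors, Real.log p / p := by
      refine Finset.sum_le_sum_of_subset_of_nonneg ?_ ?_
      · intro p hp
        rw [Finset.mem_filter, hP, Finset.mem_filter] at hp
        exact Nat.mem_primeFactors.2 ⟨hp.1.2.1, hp.2, by omega⟩
      · intro p _ _
        exact div_nonneg (Real.log_natCast_nonneg p) (Nat.cast_nonneg p)
    have h6 := small_sum hJ hm hb
    linarith
  have hedge : ∑ p ∈ P.filter (fun p => ¬ p ∣ b), Real.log p / p ≤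
      ∑ x ∈ (edges (SS m J)).filter (fun x => x.1 = b),
        Real.log ((x.2 / x.1 : ℕ) : ℝ) / ((x.2 / x.1 : ℕ) : ℝ) := by
    have hinj : Function.Injective (fun p : ℕ => (b, b * p)) := by
      intro p q hpq
      have h5 : b * p = b * q := (Prod.mk.inj hpq).2
      exact Nat.eq_of_mul_eq_mul_left hb1 h5
    have h5 : ∑ p ∈ P.filter (fun p => ¬ p ∣ b), Real.log p / p =
        ∑ x ∈ (P.filter (fun p => ¬ p ∣ b)).image (fun p : ℕ => (b, b * p)),
          Real.log ((x.2 / x.1 : ℕ) : ℝ) / ((x.2 / x.1 : ℕ) : ℝ) := by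
      rw [Finset.sum_image fun x _ y _ h => hinj h]
      refine Finset.sum_congr rfl fun p _ => ?_
      simp only [Nat.mul_div_cancel_left p hb1]
    rw [h5]
    refine Finset.sum_le_sum_of_subset_of_nonneg ?_ ?_
    · intro x hx
      rw [Finset.mem_image] at hx
      obtain ⟨p, hp, rfl⟩ := hx
      rw [Finset.mem_filter, hP, Finset.mem_filter, Finset.mem_Icc] at hp
      obtain ⟨⟨⟨-, hpN⟩, hpp, hpl⟩, hpb⟩ := hp
      have hbp : b * p ≤ m := by
        rw [hN] at hpN
        calc b * p ≤ b * (m / b) := Nat.mul_le_mul_left b hpN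
          _ ≤ m := Nat.mul_div_le m b
      rw [Finset.mem_filter]
      refine ⟨?_, rfl⟩
      unfold edges
      rw [Finset.mem_filter, Finset.mem_product]
      refine ⟨⟨hb, mem_SS hJ hb hpp hpb hbp hpl⟩, dvd_mul_right b p, ?_⟩
      simp only [Nat.mul_div_cancel_left p hb1]
      exact hpp
    · intro x _ _
      exact div_nonneg (Real.log_natCast_nonneg _) (Nat.cast_nonneg _)
  have hlog2J : Real.log (2 * J) ≤ 2 * J := by
    have := Real.log_le_sub_one_of_pos (show (0 : ℝ) < 2 * J by positivity)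
    linarith
  have hlog2 : Real.log 2 ≤ 1 := by
    have := Real.log_two_lt_d9
    linarith
  have hr : Real.log (n / (m : ℝ) ^ 2) = Real.log n - 2 * Real.log m := by
    rw [Real.log_div hn0.ne' (by positivity), Real.log_pow]
    norm_num
  rw [hr]
  have hCJ : C + 9 * J ≤ (C + 9) * J := by nlinarith
  linarith

end Pool.Agent.Q176.ML
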